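import Pool.Agent.V11185.ModBlock2

/-!
# MP_e1005d_co: a tangential 1-block over GF(7) with a modular copoint but no modular line

The matroid has rank 4 and 19 points: seven points of the affine space `AG(3, 7)` and the 12
directions of their differences.
-/

set_option autoImplicit false

namespace Pool.Agent.Results.MP_e1005d_co.RankFour

open Set Module Submodule Pool.Agent.Helper236 Pool.Agent.V11185

/-- `M` is a tangential `k`-block over the finite field `F`: it is finite, simple and representable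
over `F`, its critical exponent is larger than `k`, and every loopless proper minor of `M` has
critical exponent at most `k`. -/
def IsTangentialBlock (F : Type) [Field F] (k : ℕ) {α : Type} (M : Matroid α) : Prop :=
  M.Finite ∧ IsSimple M ∧ Representable F M ∧ (k : ℕ∞) < critExp M (Nat.card F) ∧
    ∀ N : Matroid α, N.IsMinor M → N ≠ M → (∀ e ∈ N.E, N.IsNonloop e) →
      critExp N (Nat.card F) ≤ k

/-- `M` is supersolvable: there is a chain of modular flats `G 0 ⊆ G 1 ⊆ ... ⊆ G r` with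
`r (G i) = i`, where `r` is the rank of `M`. -/
def IsSupersolvable {α : Type} (M : Matroid α) : Prop :=
  ∃ G : ℕ → Set α, (∀ i ≤ rk M M.E, IsModularFlat M (G i) ∧ rk M (G i) = i) ∧
    ∀ i < rk M M.E, G i ⊆ G (i + 1)

instance fact7 : Fact (Nat.Prime 7) := ⟨by norm_num⟩

/-- the points: seven affine points, then the directions of their differences -/
def pt : Fin 19 → (Fin 4 → ZMod 7) :=
  ![![0, 0, 0, 1],
    ![0, 0, 3, 1],
    ![0, 1, 0, 1],
    ![0, 6, 6, 1],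
    ![1, 0, 1, 1],
    ![1, 0, 5, 1],
    ![6, 0, 5, 1],
    ![1, 6, 5, 0],
    ![1, 6, 1, 0],
    ![1, 1, 6, 0],
    ![1, 1, 2, 0],
    ![1, 0, 5, 0],
    ![1, 0, 2, 0],
    ![1, 0, 1, 0],
    ![1, 0, 0, 0],
    ![0, 1, 4, 0],
    ![0, 1, 1, 0],
    ![0, 1, 0, 0],
    ![0, 0, 1, 0]]

/-- tangent planes at the points -/
def tan : Fin 19 → (Fin 4 → ZMod 7) :=
  ![![1, 1, 1, 0],
    ![1, 1, 1, 4],
    ![1, 1, 1, 6],
    ![1, 1, 1, 2],
    ![1, 1, 1, 5],
    ![1, 1, 1, 1],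
    ![1, 1, 1, 3],
    ![1, 4, 2, 2],
    ![1, 2, 1, 2],
    ![1, 1, 2, 2],
    ![1, 2, 2, 2],
    ![1, 1, 4, 1],
    ![1, 1, 3, 1],
    ![1, 2, 6, 2],
    ![0, 1, 2, 2],
    ![1, 1, 5, 3],
    ![1, 2, 5, 3],
    ![1, 0, 2, 6],
    ![1, 2, 0, 3]]

/-- tangent planes at the lines -/
def tanL : Fin 87 → (Fin 4 → ZMod 7) :=
  ![![1, 2, 0, 0],
    ![1, 0, 2, 0],
    ![1, 2, 5, 0],
    ![1, 2, 6, 0],
    ![1, 1, 4, 0],
    ![1, 1, 3, 0],
    ![1, 4, 2, 0],
    ![1, 2, 1, 0],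
    ![1, 1, 2, 0],
    ![1, 2, 2, 0],
    ![0, 1, 2, 0],
    ![1, 1, 5, 0],
    ![1, 1, 5, 6],
    ![1, 1, 4, 2],
    ![1, 1, 3, 5],
    ![1, 4, 2, 1],
    ![1, 2, 1, 4],
    ![1, 1, 2, 1],
    ![1, 2, 2, 1],
    ![1, 2, 6, 3],
    ![0, 1, 2, 1],
    ![1, 2, 5, 6],
    ![1, 0, 2, 1],
    ![1, 2, 1, 5],
    ![1, 4, 2, 3],
    ![1, 2, 2, 5],
    ![1, 1, 2, 6],
    ![1, 1, 4, 6],
    ![1, 1, 3, 6],
    ![1, 2, 6, 5],
    ![0, 1, 2, 6],
    ![1, 2, 5, 5],
    ![1, 2, 0, 5],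
    ![1, 2, 2, 4],
    ![1, 1, 2, 3],
    ![1, 2, 1, 3],
    ![1, 4, 2, 6],
    ![1, 1, 4, 5],
    ![1, 1, 3, 4],
    ![1, 2, 6, 1],
    ![0, 1, 2, 3],
    ![1, 0, 2, 2],
    ![1, 2, 0, 2],
    ![1, 2, 0, 6],
    ![1, 4, 2, 4],
    ![1, 1, 2, 4],
    ![1, 1, 3, 3],
    ![0, 1, 2, 5],
    ![1, 1, 5, 1],
    ![1, 2, 5, 1],
    ![1, 0, 2, 4],
    ![0, 1, 2, 4],
    ![1, 2, 1, 1],
    ![1, 2, 2, 3],
    ![1, 2, 6, 4],
    ![1, 1, 5, 2],
    ![1, 2, 5, 2],
    ![1, 0, 2, 3],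
    ![1, 4, 2, 5],
    ![1, 1, 2, 5],
    ![1, 2, 6, 6],
    ![1, 1, 5, 4],
    ![1, 2, 5, 4],
    ![1, 0, 2, 5],
    ![1, 2, 0, 1],
    ![1, 1, 0, 2],
    ![1, 2, 3, 1],
    ![0, 1, 3, 1],
    ![1, 0, 4, 1],
    ![1, 3, 6, 1],
    ![1, 6, 1, 2],
    ![0, 1, 1, 1],
    ![1, 5, 4, 1],
    ![1, 4, 3, 1],
    ![1, 0, 6, 1],
    ![1, 6, 0, 2],
    ![1, 3, 4, 1],
    ![1, 5, 6, 1],
    ![1, 0, 1, 2],
    ![1, 0, 3, 1],
    ![1, 1, 6, 1],
    ![0, 1, 0, 2],
    ![1, 4, 6, 1],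
    ![0, 1, 5, 1],
    ![0, 1, 6, 2],
    ![0, 0, 1, 3],
    ![1, 0, 0, 2]]

/-- some planes of the matroid -/
def pl : Fin 4 → (Fin 4 → ZMod 7) :=
  ![![0, 1, 5, 0],
    ![1, 0, 1, 3],
    ![1, 1, 6, 3],
    ![0, 1, 1, 0]]

/-- three non-collinear points on each of these planes -/
def tri : Fin 4 → (Fin 3 → Fin 19) :=
  ![![0, 14, 15],
    ![6, 9, 17],
    ![1, 10, 13],
    ![0, 8, 9]]

/-- evaluation of the functional with the given coefficients -/
def ev (w x : Fin 4 → ZMod 7) : ZMod 7 := w 0 * x 0 + w 1 * x 1 + w 2 * x 2 + w 3 * x 3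

theorem fact_last : ∀ i : Fin 19, pt i 3 = if i.val < 7 then 1 else 0 := by
  decide +kernel

theorem fact_ne_zero : ∀ i : Fin 19, pt i ≠ 0 := by
  decide +kernel

theorem fact_simple : ∀ i j : Fin 19, i ≠ j → ∀ c : ZMod 7, c • pt i ≠ pt j := by
  decide +kernel

theorem fact_diff : ∀ i j : Fin 19, i.val < 7 → j.val < 7 → i ≠ j →
    ∃ x : Fin 19, ¬ x.val < 7 ∧ ∃ c : ZMod 7, c ≠ 0 ∧ pt i - pt j = c • pt x := by
  decide +kernel

theorem fact_tangent : ∀ i : Fin 19, ev (tan i) (pt i) = 0 ∧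
    ∀ j : Fin 19, j ≠ i → ev (tan i) (pt j) ≠ 0 := by
  decide +kernel

theorem fact_line : ∀ i j : Fin 19, i < j → ∃ t, ev (tanL t) (pt i) = 0 ∧
    ev (tanL t) (pt j) = 0 ∧ ∀ l : Fin 19, ev (tanL t) (pt l) = 0 →
      ∃ a b : ZMod 7, a • pt i + b • pt j = pt l := by
  decide +kernel

theorem fact_plane : ∀ i j : Fin 19, i < j → ∃ t, (ev (pl t) (pt i) ≠ 0 ∨
    ev (pl t) (pt j) ≠ 0) ∧ ∀ l : Fin 19, ev (pl t) (pt l) = 0 →
      ∀ a b : ZMod 7, a • pt i + b • pt j ≠ pt l := by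
  decide +kernel

theorem fact_tri : ∀ t, ∀ a b c : ZMod 7,
    a • pt (tri t 0) + b • pt (tri t 1) + c • pt (tri t 2) = 0 → a = 0 ∧ b = 0 ∧ c = 0 := by
  decide +kernel

theorem fact_tri_mem : ∀ t, ∀ i, ev (pl t) (pt (tri t i)) = 0 := by
  decide +kernel

theorem fact_pl : ∀ t, ∃ i, ev (pl t) (pt i) ≠ 0 := by
  decide +kernel

/-- the linear functional with given coefficients -/
def evL (w : Fin 4 → ZMod 7) : (Fin 4 → ZMod 7) →ₗ[ZMod 7] ZMod 7 where
  toFun := ev w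
  map_add' x y := by simp only [ev, Pi.add_apply]; ring
  map_smul' d x := by simp only [ev, Pi.smul_apply, smul_eq_mul, RingHom.id_apply]; ring

/-- the matroid of rank four on 19 points -/
noncomputable def Mat : Matroid (Fin 19) := linMatroid (ZMod 7) pt univ (Set.toFinite _)

theorem Mat_E : Mat.E = univ := rfl

instance Mat_finite : Mat.Finite := ⟨Set.toFinite _⟩

theorem Mat_rep : Rep (ZMod 7) Mat pt := linMatroid_rep _ _ _

theorem Mat_simple : IsSimple Mat := by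
  intro e _ f _
  rw [Mat_rep _ (subset_univ _)]
  by_cases hef : e = f
  · subst hef
    simpa using fact_ne_zero e
  · rw [linearIndepOn_pair_iff _ hef (fact_ne_zero e)]
    exact fact_simple e f hef

/-- the set of points at infinity -/
def H : Set (Fin 19) := {i | ¬ i.val < 7}

theorem mem_compl {i : Fin 19} : i ∈ Mat.E \ H ↔ i.val < 7 := by
  rw [Mat_E, H]
  simp

theorem Mat_diff : ∀ e ∈ Mat.E \ H, ∀ f ∈ Mat.E \ H, e ≠ f → ∃ x ∈ H, ∃ c : ZMod 7, c ≠ 0 ∧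
    pt e - pt f = c • pt x := by
  intro e he f hf hef
  rw [mem_compl] at he hf
  obtain ⟨x, hx, h⟩ := fact_diff e f he hf hef
  exact ⟨x, hx, h⟩

theorem Mat_modular : IsModularHyperplane Mat H := by
  apply isModularHyperplane_of_diff Mat_rep (φ := evL ![0, 0, 0, 1]) (subset_univ _) _ _ _
    Mat_diff
  · intro x hx
    have h1 := fact_last x
    rw [if_neg hx] at h1
    simpa [evL, ev] using h1
  · intro x hx
    rw [mem_compl] at hx
    have h1 := fact_last x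
    rw [if_pos hx] at h1
    simpa [evL, ev] using h1
  · exact ⟨0, by rw [mem_compl]; decide⟩

theorem Mat_card : Nat.card (ZMod 7) ≤ (Mat.E \ H).ncard := by
  have h1 : Mat.E \ H = ((Finset.univ.filter fun i : Fin 19 => i.val < 7 : Finset (Fin 19)) :
      Set (Fin 19)) := by
    ext i
    rw [mem_compl]
    simp
  rw [h1, Set.ncard_coe_finset, Nat.card_zmod]
  decide

theorem Mat_block (f : (Fin 4 → ZMod 7) →ₗ[ZMod 7] (Fin 1 → ZMod 7)) :
    ∃ e ∈ Mat.E, f (pt e) = 0 := by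
  refine block_of_diff (H := H) ?_ Mat_card f
  intro e he f hf hef
  obtain ⟨x, _, h⟩ := Mat_diff e he f hf hef
  exact ⟨x, mem_univ _, h⟩

theorem Mat_rank_le : rk Mat Mat.E ≤ 4 := by
  rw [Mat_rep.rk_eq Subset.rfl]
  refine (Submodule.finrank_le _).trans ?_
  rw [Module.finrank_fin_fun]

theorem tri_injective (t : _) : Function.Injective (tri t) := by
  revert t
  decide +kernel

theorem three_le (t : _) : 3 ≤ rk Mat {x ∈ Mat.E | evL (pl t) (pt x) = 0} := by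
  have hli : LinearIndependent (ZMod 7) (fun i : Fin 3 => pt (tri t i)) := by
    rw [Fintype.linearIndependent_iff]
    intro g hg
    rw [Fin.sum_univ_three] at hg
    have h1 := fact_tri t _ _ _ hg
    intro i
    fin_cases i
    · exact h1.1
    · exact h1.2.1
    · exact h1.2.2
  rw [Mat_rep.rk_eq (subset_univ _)]
  have h2 := finrank_span_eq_card hli
  rw [Fintype.card_fin] at h2
  rw [← h2]
  apply Submodule.finrank_mono
  rw [span_le]
  rintro _ ⟨i, rfl⟩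
  exact subset_span (mem_image_of_mem pt ⟨mem_univ _, fact_tri_mem t i⟩)

theorem Mat_rank : rk Mat Mat.E = 4 := by
  apply le_antisymm Mat_rank_le
  have h1 := three_le 0
  have h2 : rk Mat {x ∈ Mat.E | evL (pl 0) (pt x) = 0} < rk Mat Mat.E := by
    apply rk_lt_of_flat Mat_rep (isFlat_zero Mat_rep _) Subset.rfl (subset_univ _)
    intro heq
    obtain ⟨i, hi⟩ := fact_pl 0
    have : i ∈ {x ∈ Mat.E | evL (pl 0) (pt x) = 0} := by
      rw [heq]
      exact mem_univ _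
    exact hi this.2
  omega

theorem plane_rank (t : _) : rk Mat {x ∈ Mat.E | evL (pl t) (pt x) = 0} = 3 := by
  have h1 := three_le t
  have h2 : rk Mat {x ∈ Mat.E | evL (pl t) (pt x) = 0} < rk Mat Mat.E := by
    apply rk_lt_of_flat Mat_rep (isFlat_zero Mat_rep _) Subset.rfl (subset_univ _)
    intro heq
    obtain ⟨i, hi⟩ := fact_pl t
    have : i ∈ {x ∈ Mat.E | evL (pl t) (pt x) = 0} := by
      rw [heq]
      exact mem_univ _
    exact hi this.2
  rw [Mat_rank] at h2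
  omega

theorem Mat_flats (G : Set (Fin 19)) (hG : Mat.IsFlat G) (hGne : G.Nonempty) :
    ∃ f : (Fin 4 → ZMod 7) →ₗ[ZMod 7] (Fin 1 → ZMod 7),
      (∀ x ∈ G, f (pt x) = 0) ∧ ∀ x ∈ Mat.E, x ∉ G → f (pt x) ≠ 0 := by
  refine rank_four_flats Mat_rep Mat_simple Mat_rank_le ?_ ?_ G hG hGne
  · intro e _
    exact ⟨evL (tan e), (fact_tangent e).1, fun x _ hx => (fact_tangent e).2 x hx⟩
  · have key : ∀ i j : Fin 19, i < j → ∃ f : (Fin 4 → ZMod 7) →ₗ[ZMod 7] ZMod 7, f (pt i) = 0 ∧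
        f (pt j) = 0 ∧ ∀ x ∈ Mat.E, f (pt x) = 0 → pt x ∈ span (ZMod 7) (pt '' {i, j}) := by
      intro i j hij
      obtain ⟨t, h1, h2, h3⟩ := fact_line i j hij
      refine ⟨evL (tanL t), h1, h2, ?_⟩
      intro x _ hx
      obtain ⟨a, b, hab⟩ := h3 x hx
      rw [image_pair, mem_span_pair]
      exact ⟨a, b, hab⟩
    intro e _ e' _ hee
    rcases lt_or_gt_of_ne hee with h | h
    · exact key e e' h
    · obtain ⟨f, h1, h2, h3⟩ := key e' e h
      refine ⟨f, h2, h1, ?_⟩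
      rw [pair_comm]
      exact h3

theorem Mat_tangential : IsTangentialBlock (ZMod 7) 1 Mat := by
  refine ⟨Mat_finite, Mat_simple, ⟨4, pt, Mat_rep⟩, (lt_critExp_iff Mat_rep 1).2 Mat_block, ?_⟩
  intro N hN hne hl
  exact minor_le Mat_rep Mat_simple Mat_flats hN hne hl

theorem no_modular_line (L : Set (Fin 19)) (hL : IsModularFlat Mat L) (hL2 : rk Mat L = 2) :
    False := by
  obtain ⟨e, _, e', _, hee, h⟩ := modular_line_meets Mat_rep Mat_simple Mat_rank hL hL2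
  have key : ∀ i j : Fin 19, i < j → ¬ ∀ w : (Fin 4 → ZMod 7) →ₗ[ZMod 7] ZMod 7,
      (w (pt i) ≠ 0 ∨ w (pt j) ≠ 0) → rk Mat {x ∈ Mat.E | w (pt x) = 0} = 3 →
      ∃ x ∈ Mat.E, w (pt x) = 0 ∧ pt x ∈ span (ZMod 7) (pt '' {i, j}) := by
    intro i j hij hw
    obtain ⟨t, h1, h2⟩ := fact_plane i j hij
    obtain ⟨x, _, hx0, hx⟩ := hw (evL (pl t)) h1 (plane_rank t)
    rw [image_pair, mem_span_pair] at hx
    obtain ⟨a, b, hab⟩ := hx
    exact h2 x hx0 a b hab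
  rcases lt_or_gt_of_ne hee with h' | h'
  · exact key e e' h' h
  · apply key e' e h'
    intro w hw
    rw [pair_comm]
    exact h w hw.symm

/-- **A tangential block with a modular copoint that is not supersolvable.** -/
theorem result : ∃ (F : Type) (_ : Field F) (_ : Finite F) (k : ℕ) (α : Type) (M : Matroid α),
    1 ≤ k ∧ IsTangentialBlock F k M ∧ (∃ X, IsModularHyperplane M X) ∧ ¬ IsSupersolvable M := by
  refine ⟨ZMod 7, inferInstance, inferInstance, 1, Fin 19, Mat, le_rfl, Mat_tangential,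
    ⟨H, Mat_modular⟩, ?_⟩
  rintro ⟨G, hG, -⟩
  obtain ⟨h1, h2⟩ := hG 2 (by rw [Mat_rank]; norm_num)
  exact no_modular_line (G 2) h1 h2

end Pool.Agent.Results.MP_e1005d_co.RankFour
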